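import Pool.Agent.Helper56.RZ.GoalsA

/-! # Packet RZ-A1: partial hyperbolicity gives contraction on Hom bundles -/

set_option autoImplicit false

open Set Filter Topology

namespace Pool.Agent.Helper64.RZ

open Pool.Agent.Helper56.RZ

section basic
variable {X : Type} [TopologicalSpace X] {K : ℕ} (C : Coc X K)

theorem An_T (n : ℕ) (x : X) : C.An n x * C.T x = C.An n x := by
  induction n with
  | zero => exact C.TT x
  | succ n ih => rw [Coc.An, mul_assoc, ih]

theorem T_An (n : ℕ) (x : X) : C.T (C.f^[n] x) * C.An n x = C.An n x := by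
  cases n with
  | zero => exact C.TT x
  | succ n =>
    rw [Coc.An, Function.iterate_succ_apply', ← mul_assoc, C.TA]

theorem An_add (m n : ℕ) (x : X) : C.An (m + n) x = C.An m (C.f^[n] x) * C.An n x := by
  induction m with
  | zero => rw [Nat.zero_add, Coc.An, T_An]
  | succ m ih =>
    rw [Nat.succ_add, Coc.An, ih, Coc.An, ← Function.iterate_add_apply, mul_assoc]

theorem An_cont (n : ℕ) : Continuous (C.An n) := by
  induction n with
  | zero => exact C.contT
  | succ n ih => exact (C.contA.comp (C.f.continuous.iterate n)).mul ih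

theorem inv_An (n : ℕ) (x : X) : C.inv.An n (C.f^[n] x) * C.An n x = C.T x := by
  induction n generalizing x with
  | zero => exact C.TT x
  | succ n ih =>
    have h1 : C.An (n + 1) x = C.A (C.f^[n] x) * C.An n x := rfl
    have h2 : C.inv.An (n + 1) (C.f^[n + 1] x)
        = C.inv.An n (C.f^[n] x) * C.B (C.f^[n + 1] x) := by
      rw [An_add C.inv n 1]
      have e1 : C.inv.f^[1] (C.f^[n + 1] x) = C.f^[n] x := by
        rw [Function.iterate_one, Function.iterate_succ_apply']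
        exact C.f.symm_apply_apply _
      have e2 : C.inv.An 1 (C.f^[n + 1] x) = C.B (C.f^[n + 1] x) := by
        change C.B _ * C.T _ = _
        exact C.BT _
      rw [e1, e2]
    rw [h1, h2, mul_assoc, ← mul_assoc (C.B _), Function.iterate_succ_apply', C.BA, T_An, ih]

theorem inv_inv : C.inv.inv = C := rfl

theorem f_inv (n : ℕ) (x : X) : C.inv.f^[n] (C.f^[n] x) = x := by
  induction n generalizing x with
  | zero => rfl
  | succ n ih =>
    rw [Function.iterate_succ_apply' C.f, Function.iterate_succ_apply]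
    have : C.inv.f (C.f (C.f^[n] x)) = C.f^[n] x := C.f.symm_apply_apply _
    rw [this, ih]

theorem An_inv (n : ℕ) (x : X) : C.An n x * C.inv.An n (C.f^[n] x) = C.T (C.f^[n] x) := by
  have h := inv_An C.inv n (C.f^[n] x)
  rw [f_inv] at h
  exact h

end basic

section spl
variable {X : Type} [TopologicalSpace X] {K : ℕ} {C : Coc X K} {P : Fin 3 → X → End K}

theorem P_T (h : Spl C P) (i : Fin 3) (x : X) : P i x * C.T x = P i x := by
  rw [← h.sum, mul_add, mul_add, h.proj, h.proj, h.proj]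
  fin_cases i <;> simp

theorem T_P (h : Spl C P) (i : Fin 3) (x : X) : C.T x * P i x = P i x := by
  rw [← h.sum, add_mul, add_mul, h.proj, h.proj, h.proj]
  fin_cases i <;> simp

theorem T_fix (h : Spl C P) {i : Fin 3} {x : X} {v : E K} (hv : P i x v = v) : C.T x v = v := by
  have := congrArg (fun L : End K => L v) (T_P h i x)
  simp only [ContinuousLinearMap.mul_apply] at this
  rwa [hv] at this

theorem spl_inv (h : Spl C P) : Spl C.inv P where
  cont := h.cont
  proj := h.proj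
  sum := h.sum
  ne := h.ne
  inv := by
    intro x i
    have h1 := h.inv (C.f.symm x) i
    rw [Homeomorph.apply_symm_apply] at h1
    change C.B x * P i x = P i (C.f.symm x) * C.B x
    have e1 : C.B x * C.A (C.f.symm x) = C.T (C.f.symm x) := by
      have := C.BA (C.f.symm x)
      rwa [Homeomorph.apply_symm_apply] at this
    have e2 : C.A (C.f.symm x) * C.B x = C.T x := by
      have := C.AB (C.f.symm x)
      rwa [Homeomorph.apply_symm_apply] at this
    calc C.B x * P i x = C.B x * (P i x * C.T x) := by rw [P_T h]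
      _ = C.B x * (P i x * (C.A (C.f.symm x) * C.B x)) := by rw [e2]
      _ = C.B x * (P i x * C.A (C.f.symm x)) * C.B x := by simp only [mul_assoc]
      _ = C.B x * (C.A (C.f.symm x) * P i (C.f.symm x)) * C.B x := by rw [h1]
      _ = (C.B x * C.A (C.f.symm x)) * P i (C.f.symm x) * C.B x := by simp only [mul_assoc]
      _ = P i (C.f.symm x) * C.B x := by rw [e1, T_P h]

theorem P_An (h : Spl C P) (i : Fin 3) (n : ℕ) (x : X) :
    C.An n x * P i x = P i (C.f^[n] x) * C.An n x := by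
  induction n with
  | zero =>
    change C.T x * P i x = P i x * C.T x
    rw [T_P h, P_T h]
  | succ n ih =>
    rw [Coc.An, mul_assoc, ih, ← mul_assoc, h.inv, mul_assoc, Function.iterate_succ_apply']

theorem fix_An (h : Spl C P) {i : Fin 3} {x : X} {v : E K} (hv : P i x v = v) (n : ℕ) :
    P i (C.f^[n] x) (C.An n x v) = C.An n x v := by
  have := congrArg (fun L : End K => L v) (P_An h i n x)
  simp only [ContinuousLinearMap.mul_apply] at this
  rw [hv] at this
  exact this.symm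

theorem An_ne (h : Spl C P) {i : Fin 3} {x : X} {v : E K} (hv : P i x v = v) (hv0 : v ≠ 0) (n : ℕ) :
    C.An n x v ≠ 0 := by
  intro h0
  have := congrArg (fun L : End K => L v) (inv_An C n x)
  simp only [ContinuousLinearMap.mul_apply] at this
  rw [h0, map_zero, T_fix h hv] at this
  exact hv0 this.symm

/-- `P i` is dominated by `P j` in `n` steps. -/
def Dm (C : Coc X K) (P : Fin 3 → X → End K) (n : ℕ) (i j : Fin 3) : Prop :=
  ∀ x v w, P i x w = w → P j x v = v → ‖w‖ = 1 → ‖v‖ = 1 → ‖C.An n x w‖ < ‖C.An n x v‖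

theorem unit_fix {i : Fin 3} {x : X} {v : E K} (hv : P i x v = v) (a : ℝ) :
    P i x (a • v) = a • v := by
  rw [map_smul, hv]

/-- homogeneous form -/
theorem Dm_hom {n : ℕ} {i j : Fin 3} (hD : Dm C P n i j) {x : X} {v w : E K} (hw : P i x w = w)
    (hv : P j x v = v) (hw0 : w ≠ 0) (hv0 : v ≠ 0) :
    ‖C.An n x w‖ * ‖v‖ < ‖C.An n x v‖ * ‖w‖ := by
  have hwn : 0 < ‖w‖ := norm_pos_iff.2 hw0
  have hvn : 0 < ‖v‖ := norm_pos_iff.2 hv0
  have h1 := hD x (‖v‖⁻¹ • v) (‖w‖⁻¹ • w) (unit_fix hw _) (unit_fix hv _)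
    (by rw [norm_smul, norm_inv, norm_norm]; field_simp)
    (by rw [norm_smul, norm_inv, norm_norm]; field_simp)
  rw [map_smul, map_smul, norm_smul, norm_smul, norm_inv, norm_inv, norm_norm, norm_norm] at h1
  have h2 := mul_lt_mul_of_pos_right h1 (mul_pos hwn hvn)
  have e1 : ‖w‖⁻¹ * ‖C.An n x w‖ * (‖w‖ * ‖v‖) = ‖C.An n x w‖ * ‖v‖ := by field_simp
  have e2 : ‖v‖⁻¹ * ‖C.An n x v‖ * (‖w‖ * ‖v‖) = ‖C.An n x v‖ * ‖w‖ := by field_simp
  rwa [e1, e2] at h2

theorem Dm_inv (h : Spl C P) {n : ℕ} {i j : Fin 3} (hD : Dm C P n i j) : Dm C.inv P n j i := by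
  intro x v w hw hv hw1 hv1
  have hs := spl_inv h
  have hw0 : w ≠ 0 := by
    rintro rfl
    simp at hw1
  have hv0 : v ≠ 0 := by
    rintro rfl
    simp at hv1
  have hw' := fix_An hs hw n
  have hv' := fix_An hs hv n
  have hw'0 := An_ne hs hw hw0 n
  have hv'0 := An_ne hs hv hv0 n
  have key := Dm_hom hD hv' hw' hv'0 hw'0
  have e : ∀ u, C.T x u = u → C.An n (C.inv.f^[n] x) (C.inv.An n x u) = u := by
    intro u hu
    have h1 := congrArg (fun L : End K => L u) (inv_An C.inv n x)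
    simp only [ContinuousLinearMap.mul_apply] at h1
    rw [inv_inv] at h1
    rw [h1]
    exact hu
  rw [e v (T_fix h hv), e w (T_fix h hw), hw1, hv1, one_mul, one_mul] at key
  exact key

theorem dm_trans (h : Spl C P) {n : ℕ} {i j k : Fin 3} (h1 : Dm C P n i j) (h2 : Dm C P n j k) :
    Dm C P n i k := by
  intro x v w hw hv hw1 hv1
  obtain ⟨u, hu⟩ : ∃ u, P j x u ≠ 0 := by
    by_contra hcon
    push Not at hcon
    exact h.ne x j (ContinuousLinearMap.ext hcon)
  have hfix : P j x (P j x u) = P j x u := by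
    have := congrArg (fun L : End K => L u) (h.proj x j j)
    simpa using this
  set z := ‖P j x u‖⁻¹ • P j x u with hz
  have hzn : ‖z‖ = 1 := by
    have : 0 < ‖P j x u‖ := norm_pos_iff.2 hu
    rw [hz, norm_smul, norm_inv, norm_norm]
    field_simp
  have hzf : P j x z = z := unit_fix hfix _
  exact (h1 x z w hw hzf hw1 hzn).trans (h2 x v z hzf hv hzn hv1)

end spl

section comp
variable {X : Type} [MetricSpace X] [CompactSpace X] {K : ℕ} {C : Coc X K}
  {P : Fin 3 → X → End K}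

theorem unif (h : Spl C P) {n : ℕ} {i j : Fin 3} (hD : Dm C P n i j) :
    ∃ q : ℝ, 0 < q ∧ q < 1 ∧ ∀ x v w, P i x w = w → P j x v = v →
      ‖C.An n x w‖ * ‖v‖ ≤ q * ‖C.An n x v‖ * ‖w‖ := by
  set S : Set (X × E K × E K) := {p | P j p.1 p.2.1 = p.2.1 ∧ P i p.1 p.2.2 = p.2.2 ∧
    ‖p.2.1‖ = 1 ∧ ‖p.2.2‖ = 1} with hS
  have hcP : ∀ i : Fin 3, Continuous fun p : X × E K => P i p.1 p.2 := fun i =>
    ((h.cont i).comp continuous_fst).clm_apply continuous_snd
  have hcl : IsClosed S := by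
    refine IsClosed.inter (s₁ := {p : X × E K × E K | P j p.1 p.2.1 = p.2.1}) ?_
      (IsClosed.inter (s₁ := {p : X × E K × E K | P i p.1 p.2.2 = p.2.2}) ?_
      (IsClosed.inter (s₁ := {p : X × E K × E K | ‖p.2.1‖ = 1}) ?_ ?_))
    · exact isClosed_eq ((hcP j).comp (by fun_prop : Continuous fun p : X × E K × E K => (p.1, p.2.1)))
        (by fun_prop)
    · exact isClosed_eq ((hcP i).comp (by fun_prop : Continuous fun p : X × E K × E K => (p.1, p.2.2)))
        (by fun_prop)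
    · exact isClosed_eq (by fun_prop) continuous_const
    · exact isClosed_eq (by fun_prop) continuous_const
  have hcomp : IsCompact S := by
    refine IsCompact.of_isClosed_subset
      (isCompact_univ.prod ((isCompact_closedBall (0 : E K) 1).prod (isCompact_closedBall (0 : E K) 1)))
      hcl ?_
    rintro ⟨x, v, w⟩ ⟨-, -, h1, h2⟩
    exact ⟨mem_univ _, by simpa using h1.le, by simpa using h2.le⟩
  have hcA : Continuous fun p : X × E K => C.An n p.1 p.2 :=
    ((An_cont C n).comp continuous_fst).clm_apply continuous_snd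
  have hpos : ∀ p ∈ S, 0 < ‖C.An n p.1 p.2.1‖ := by
    rintro ⟨x, v, w⟩ ⟨h1, -, h3, -⟩
    refine norm_pos_iff.2 (An_ne h h1 ?_ n)
    rintro rfl
    simp at h3
  have key : ∃ q : ℝ, 0 < q ∧ q < 1 ∧ ∀ p ∈ S, ‖C.An n p.1 p.2.2‖ ≤ q * ‖C.An n p.1 p.2.1‖ := by
    rcases S.eq_empty_or_nonempty with he | hne
    · exact ⟨1 / 2, by norm_num, by norm_num, by rw [he]; simp⟩
    · have hφ : ContinuousOn (fun p : X × E K × E K => ‖C.An n p.1 p.2.2‖ / ‖C.An n p.1 p.2.1‖) S := by
        refine ContinuousOn.div ?_ ?_ (fun p hp => (hpos p hp).ne')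
        · exact (hcA.comp (by fun_prop : Continuous fun p : X × E K × E K =>
            (p.1, p.2.2))).norm.continuousOn
        · exact (hcA.comp (by fun_prop : Continuous fun p : X × E K × E K =>
            (p.1, p.2.1))).norm.continuousOn
      obtain ⟨p0, hp0, hmax⟩ := hcomp.exists_isMaxOn hne hφ
      set q0 := ‖C.An n p0.1 p0.2.2‖ / ‖C.An n p0.1 p0.2.1‖ with hq0
      have hq01 : q0 < 1 := by
        rw [hq0, div_lt_one (hpos p0 hp0)]
        exact hD p0.1 p0.2.1 p0.2.2 hp0.2.1 hp0.1 hp0.2.2.2 hp0.2.2.1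
      refine ⟨max q0 (1 / 2), lt_max_of_lt_right (by norm_num), max_lt hq01 (by norm_num), ?_⟩
      intro p hp
      have h1 : ‖C.An n p.1 p.2.2‖ / ‖C.An n p.1 p.2.1‖ ≤ q0 := hmax hp
      rw [div_le_iff₀ (hpos p hp)] at h1
      exact h1.trans (mul_le_mul_of_nonneg_right (le_max_left _ _) (norm_nonneg _))
  obtain ⟨q, hq0, hq1, hq⟩ := key
  refine ⟨q, hq0, hq1, fun x v w hw hv => ?_⟩
  by_cases hw0 : w = 0
  · simp [hw0]
  by_cases hv0 : v = 0
  · simp [hv0]
  have hwn : 0 < ‖w‖ := norm_pos_iff.2 hw0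
  have hvn : 0 < ‖v‖ := norm_pos_iff.2 hv0
  have h1 := hq (x, ‖v‖⁻¹ • v, ‖w‖⁻¹ • w) ⟨unit_fix hv _, unit_fix hw _,
    by change ‖‖v‖⁻¹ • v‖ = 1; rw [norm_smul, norm_inv, norm_norm]; field_simp,
    by change ‖‖w‖⁻¹ • w‖ = 1; rw [norm_smul, norm_inv, norm_norm]; field_simp⟩
  simp only at h1
  rw [map_smul, map_smul, norm_smul, norm_smul, norm_inv, norm_inv, norm_norm, norm_norm] at h1
  have h2 := mul_le_mul_of_nonneg_right h1 (mul_pos hwn hvn).le
  have e1 : ‖w‖⁻¹ * ‖C.An n x w‖ * (‖w‖ * ‖v‖) = ‖C.An n x w‖ * ‖v‖ := by field_simp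
  have e2 : q * (‖v‖⁻¹ * ‖C.An n x v‖) * (‖w‖ * ‖v‖) = q * ‖C.An n x v‖ * ‖w‖ := by field_simp
  rwa [e1, e2] at h2

theorem iter (h : Spl C P) {n : ℕ} {i j : Fin 3} {q : ℝ} (hq0 : 0 < q)
    (hq : ∀ x v w, P i x w = w → P j x v = v → ‖C.An n x w‖ * ‖v‖ ≤ q * ‖C.An n x v‖ * ‖w‖) (k : ℕ) :
    ∀ x v w, P i x w = w → P j x v = v →
      ‖C.An (k * n) x w‖ * ‖v‖ ≤ q ^ k * ‖C.An (k * n) x v‖ * ‖w‖ := by
  induction k with
  | zero =>
    intro x v w hw hv
    rw [Nat.zero_mul]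
    change ‖C.T x w‖ * ‖v‖ ≤ q ^ 0 * ‖C.T x v‖ * ‖w‖
    rw [T_fix h hw, T_fix h hv, pow_zero, one_mul, mul_comm]
  | succ k ih =>
    intro x v w hw hv
    by_cases hv0 : v = 0
    · simp [hv0]
    have e : ∀ u, C.An ((k + 1) * n) x u = C.An n (C.f^[k * n] x) (C.An (k * n) x u) := by
      intro u
      rw [Nat.succ_mul, Nat.add_comm, An_add]
      rfl
    rw [e, e]
    set w' := C.An (k * n) x w with hw'
    set v' := C.An (k * n) x v with hv'
    have h1 := hq (C.f^[k * n] x) v' w' (fix_An h hw _) (fix_An h hv _)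
    have h2 := ih x v w hw hv
    have hv'0 : 0 < ‖v'‖ := norm_pos_iff.2 (An_ne h hv hv0 _)
    set a := ‖C.An n (C.f^[k * n] x) w'‖
    set b := ‖C.An n (C.f^[k * n] x) v'‖
    have hb : 0 ≤ b := norm_nonneg _
    have h3 : a * ‖v‖ * ‖v'‖ ≤ q ^ (k + 1) * b * ‖w‖ * ‖v'‖ := by
      calc a * ‖v‖ * ‖v'‖ = (a * ‖v'‖) * ‖v‖ := by ring
        _ ≤ (q * b * ‖w'‖) * ‖v‖ := mul_le_mul_of_nonneg_right h1 (norm_nonneg _)
        _ = q * b * (‖w'‖ * ‖v‖) := by ring
        _ ≤ q * b * (q ^ k * ‖v'‖ * ‖w‖) := mul_le_mul_of_nonneg_left h2 (by positivity)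
        _ = q ^ (k + 1) * b * ‖w‖ * ‖v'‖ := by ring
    exact le_of_mul_le_mul_right h3 hv'0

theorem block (h : Spl C P) {n : ℕ} {i j : Fin 3} (hD : Dm C P n i j) {M : ℝ} (hM : 0 ≤ M)
    (hMb : ∀ i x, ‖P i x‖ ≤ M) : ∃ q : ℝ, 0 < q ∧ q < 1 ∧ ∀ (k : ℕ) (x : X) (s : End K),
      P i x * s * P j x = s →
      ‖C.An (k * n) x * s * C.inv.An (k * n) (C.f^[k * n] x)‖ ≤ q ^ k * M * ‖s‖ := by
  obtain ⟨q, hq0, hq1, hq⟩ := unif h hD
  refine ⟨q, hq0, hq1, fun k x s hs => ?_⟩
  have hit := iter h hq0 hq k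
  refine ContinuousLinearMap.opNorm_le_bound _ (by positivity) fun u => ?_
  set m := k * n
  set v := P j x (C.inv.An m (C.f^[m] x) u) with hv
  have hpj : ∀ z, P j x (P j x z) = P j x z := by
    intro z
    have := congrArg (fun L : End K => L z) (h.proj x j j)
    simpa using this
  have hpi : ∀ z, P i x (s z) = s z := by
    intro z
    have h1 := congrArg (fun L : End K => L z) hs
    simp only [ContinuousLinearMap.mul_apply] at h1
    rw [← h1]
    have := congrArg (fun L : End K => L (s (P j x z))) (h.proj x i i)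
    simpa using this
  have hsv : ∀ z, s z = s (P j x z) := by
    intro z
    have h1 := congrArg (fun L : End K => L z) hs
    simp only [ContinuousLinearMap.mul_apply] at h1
    have h2 := congrArg (fun L : End K => L (P j x z)) hs
    simp only [ContinuousLinearMap.mul_apply] at h2
    rw [hpj] at h2
    exact h1.symm.trans h2
  have e1 : (C.An m x * s * C.inv.An m (C.f^[m] x)) u = C.An m x (s v) := by
    simp only [ContinuousLinearMap.mul_apply]
    rw [hsv]
  have e2 : C.An m x v = P j (C.f^[m] x) u := by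
    have h1 := congrArg (fun L : End K => L (C.inv.An m (C.f^[m] x) u)) (P_An h j m x)
    simp only [ContinuousLinearMap.mul_apply] at h1
    have h2 := congrArg (fun L : End K => L u) (An_inv C m x)
    simp only [ContinuousLinearMap.mul_apply] at h2
    have h3 := congrArg (fun L : End K => L u) (P_T h j (C.f^[m] x))
    simp only [ContinuousLinearMap.mul_apply] at h3
    rw [hv, h1, h2, h3]
  rw [e1]
  by_cases hv0 : v = 0
  · rw [hv0, map_zero, map_zero, norm_zero]
    positivity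
  have hvn : 0 < ‖v‖ := norm_pos_iff.2 hv0
  have h1 := hit x v (s v) (hpi v) (hpj _)
  have h2 : ‖C.An m x (s v)‖ * ‖v‖ ≤ (q ^ k * M * ‖s‖ * ‖u‖) * ‖v‖ := by
    refine h1.trans ?_
    rw [e2]
    have h3 : ‖P j (C.f^[m] x) u‖ ≤ M * ‖u‖ :=
      ((P j (C.f^[m] x)).le_opNorm u).trans (mul_le_mul_of_nonneg_right (hMb _ _) (norm_nonneg _))
    have h4 : ‖s v‖ ≤ ‖s‖ * ‖v‖ := s.le_opNorm v
    calc q ^ k * ‖P j (C.f^[m] x) u‖ * ‖s v‖ ≤ q ^ k * (M * ‖u‖) * (‖s‖ * ‖v‖) := by gcongr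
      _ = (q ^ k * M * ‖s‖ * ‖u‖) * ‖v‖ := by ring
  exact le_of_mul_le_mul_right h2 hvn

theorem bound (h : Spl C P) : ∃ M : ℝ, 1 ≤ M ∧ ∀ i x, ‖P i x‖ ≤ M := by
  have h1 : ∀ i : Fin 3, ∃ M : ℝ, ∀ x, ‖P i x‖ ≤ M := by
    intro i
    obtain ⟨M, hM⟩ := isCompact_univ.exists_bound_of_continuousOn (h.cont i).continuousOn
    exact ⟨M, fun x => hM x (mem_univ _)⟩
  choose M hM using h1
  refine ⟨max 1 (max (M 0) (max (M 1) (M 2))), le_max_left _ _, fun i x => (hM i x).trans ?_⟩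
  fin_cases i
  · exact (le_max_left _ _).trans (le_max_right _ _)
  · exact ((le_max_left _ _).trans (le_max_right _ _)).trans (le_max_right _ _)
  · exact ((le_max_right _ _).trans (le_max_right _ _)).trans (le_max_right _ _)

/-- two blocks -/
theorem two (h : Spl C P) {n : ℕ} {i j i' j' : Fin 3} (h1 : Dm C P n i j) (h2 : Dm C P n i' j')
    (F G : X → End K)
    (hFG : ∀ x s, G x * s * F x = s → s = P i x * s * P j x + P i' x * s * P j' x) :
    Contr C F G := by
  obtain ⟨M, hM1, hM⟩ := bound h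
  have hM0 : 0 ≤ M := by linarith
  obtain ⟨q1, a1, a2, a3⟩ := block h h1 hM0 hM
  obtain ⟨q2, b1, b2, b3⟩ := block h h2 hM0 hM
  have hpow : ∀ q : ℝ, 0 < q → q < 1 → ∀ᶠ k : ℕ in atTop, q ^ k * M ^ 3 < 1 / 4 := by
    intro q hq0 hq1
    have := (tendsto_pow_atTop_nhds_zero_of_lt_one hq0.le hq1).mul_const (M ^ 3)
    rw [zero_mul] at this
    exact this.eventually_lt_const (by norm_num)
  obtain ⟨k, hk1, hk2⟩ := ((hpow q1 a1 a2).and (hpow q2 b1 b2)).exists
  refine ⟨k * n, 1 / 2, by norm_num, by norm_num, fun x s hs => ?_⟩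
  have hsum := hFG x s hs
  have hblk : ∀ (i j : Fin 3), P i x * (P i x * s * P j x) * P j x = P i x * s * P j x := by
    intro i j
    have e1 : P i x * P i x = P i x := by rw [h.proj]; simp
    have e2 : P j x * P j x = P j x := by rw [h.proj]; simp
    calc P i x * (P i x * s * P j x) * P j x = (P i x * P i x) * s * (P j x * P j x) := by
          simp only [mul_assoc]
      _ = P i x * s * P j x := by rw [e1, e2]
  have hnorm : ∀ (i j : Fin 3), ‖P i x * s * P j x‖ ≤ M ^ 2 * ‖s‖ := by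
    intro i j
    calc ‖P i x * s * P j x‖ ≤ ‖P i x‖ * ‖s‖ * ‖P j x‖ :=
          (norm_mul_le _ _).trans (mul_le_mul_of_nonneg_right (norm_mul_le _ _) (norm_nonneg _))
      _ ≤ M * ‖s‖ * M := by
          have := hM i x
          have := hM j x
          gcongr
      _ = M ^ 2 * ‖s‖ := by ring
  have c1 := a3 k x _ (hblk i j)
  have c2 := b3 k x _ (hblk i' j')
  have d1 := hnorm i j
  have d2 := hnorm i' j'
  rw [show C.An (k * n) x * s * C.inv.An (k * n) (C.f^[k * n] x) =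
    C.An (k * n) x * (P i x * s * P j x) * C.inv.An (k * n) (C.f^[k * n] x) +
    C.An (k * n) x * (P i' x * s * P j' x) * C.inv.An (k * n) (C.f^[k * n] x) by
      rw [← add_mul, ← mul_add, ← hsum]]
  refine (norm_add_le _ _).trans ((add_le_add c1 c2).trans ?_)
  have s0 : 0 ≤ ‖s‖ := norm_nonneg _
  have e1 : q1 ^ k * M * ‖P i x * s * P j x‖ ≤ (q1 ^ k * M ^ 3) * ‖s‖ := by
    calc q1 ^ k * M * ‖P i x * s * P j x‖ ≤ q1 ^ k * M * (M ^ 2 * ‖s‖) := by gcongr
      _ = (q1 ^ k * M ^ 3) * ‖s‖ := by ring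
  have e2 : q2 ^ k * M * ‖P i' x * s * P j' x‖ ≤ (q2 ^ k * M ^ 3) * ‖s‖ := by
    calc q2 ^ k * M * ‖P i' x * s * P j' x‖ ≤ q2 ^ k * M * (M ^ 2 * ‖s‖) := by gcongr
      _ = (q2 ^ k * M ^ 3) * ‖s‖ := by ring
  have e3 : (q1 ^ k * M ^ 3) * ‖s‖ ≤ 1 / 4 * ‖s‖ := mul_le_mul_of_nonneg_right hk1.le s0
  have e4 : (q2 ^ k * M ^ 3) * ‖s‖ ≤ 1 / 4 * ‖s‖ := mul_le_mul_of_nonneg_right hk2.le s0
  linarith

end comp

theorem a1 : StmtA1 := by
  intro X _ _ K C P n hS hD
  obtain ⟨-, hD⟩ := hD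
  have d01 : Dm C P n 0 1 := fun x v w hw hv hw1 hv1 => (hD x).2.2.1 w v hw hv hw1 hv1
  have d12 : Dm C P n 1 2 := fun x v w hw hv hw1 hv1 => (hD x).2.2.2 w v hw hv hw1 hv1
  have d02 : Dm C P n 0 2 := dm_trans hS d01 d12
  have hp : ∀ (x : X) (i j : Fin 3), i ≠ j → P i x * P j x = 0 := by
    intro x i j hij
    rw [hS.proj, if_neg hij]
  have hp' : ∀ (x : X) (i : Fin 3), P i x * P i x = P i x := by
    intro x i
    rw [hS.proj, if_pos rfl]
  refine ⟨two hS d02 d12 _ _ ?_, two hS d01 d02 _ _ ?_,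
    two (spl_inv hS) (Dm_inv hS d01) (Dm_inv hS d02) _ _ ?_,
    two (spl_inv hS) (Dm_inv hS d02) (Dm_inv hS d12) _ _ ?_⟩
  · intro x s hs
    have h1 : s * P 2 x = s := by
      rw [← hs, mul_assoc, hp']
    rw [mul_assoc, mul_assoc, h1, ← add_mul]
    calc s = (P 0 x + P 1 x) * s * P 2 x := hs.symm
      _ = (P 0 x + P 1 x) * (s * P 2 x) := mul_assoc _ _ _
      _ = (P 0 x + P 1 x) * s := by rw [h1]
  · intro x s hs
    have h1 : P 0 x * s = s := by
      rw [← hs, ← mul_assoc, ← mul_assoc, hp']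
    rw [h1, ← mul_add]
    calc s = P 0 x * s * (P 1 x + P 2 x) := hs.symm
      _ = s * (P 1 x + P 2 x) := by rw [h1]
  · intro x s hs
    have h1 : s * P 0 x = s := by
      rw [← hs, mul_assoc, hp']
    rw [mul_assoc, mul_assoc, h1, ← add_mul]
    calc s = (P 1 x + P 2 x) * s * P 0 x := hs.symm
      _ = (P 1 x + P 2 x) * (s * P 0 x) := mul_assoc _ _ _
      _ = (P 1 x + P 2 x) * s := by rw [h1]
  · intro x s hs
    have h1 : P 2 x * s = s := by
      rw [← hs, ← mul_assoc, ← mul_assoc, hp']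
    rw [h1, ← mul_add]
    calc s = P 2 x * s * (P 0 x + P 1 x) := hs.symm
      _ = s * (P 0 x + P 1 x) := by rw [h1]

end Pool.Agent.Helper64.RZ
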