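import Pool.Agent.Helper56.RZ.GoalsB

set_option autoImplicit false

open Set Filter Topology MeasureTheory

open Pool.Agent.Helper56.RZ

open scoped ContDiff

namespace Pool.Agent.Helper64.RZ

theorem q_cont {N : ℕ} {p : Fin 3 → End N} (d : Tw N p) : Continuous d.q := by
  have h1 : Continuous (fun z => d.wc z) := d.wc.continuous
  have h2 : Continuous (fun z => d.wu z) := d.wu.continuous
  have h3 : Continuous (fun z => d.R z) := d.R.continuous
  exact ((h1.pow 2).add (h2.pow 2)).add (h3.norm.pow 2)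

theorem int : StmtINT := by
  intro N K M m c p hm _hp d z0 ρ hρ hfit hvol F hF hF0
  set T : Set (E N) := {z | d.q (ρ⁻¹ • (z - z0)) ≤ 1} with hT
  set S : Set (E K) := c.ψ '' T with hS
  have hTc : IsClosed T := by
    have h : Continuous (fun z : E N => d.q (ρ⁻¹ • (z - z0))) :=
      (q_cont d).comp ((continuous_id.sub continuous_const).const_smul ρ⁻¹)
    exact isClosed_le h continuous_const
  have hTm : MeasurableSet T := hTc.measurableSet
  have hTV : T ⊆ c.V := by
    intro z hz
    have h := hfit (ρ⁻¹ • (z - z0)) hz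
    rw [smul_smul, mul_inv_cancel₀ hρ.ne', one_smul, add_sub_cancel] at h
    exact h
  have hψ : ContinuousOn c.ψ T := c.smoothψ.continuousOn.mono hTV
  have hψm : AEMeasurable c.ψ (volume.restrict T) := hψ.aemeasurable hTm
  -- the measure on `S`
  have hmS : m.restrict S = Measure.map c.ψ (volume.restrict T) := by
    ext B hB
    rw [Measure.restrict_apply hB, Measure.map_apply_of_aemeasurable hψm hB,
      Measure.restrict_apply' hTm]
    have hA : MeasurableSet (c.ψ ⁻¹' B ∩ T) := by
      have h1 : Measurable (T.restrict c.ψ) := (continuousOn_iff_continuous_restrict.1 hψ).measurable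
      have h2 : MeasurableSet ((T.restrict c.ψ) ⁻¹' B) := h1 hB
      have h3 := hTm.subtype_image h2
      have h4 : ((fun x : T => (x : E N)) '' ((T.restrict c.ψ) ⁻¹' B)) = c.ψ ⁻¹' B ∩ T := by
        ext z
        constructor
        · rintro ⟨x, hx, rfl⟩
          exact ⟨hx, x.2⟩
        · rintro ⟨h5, h6⟩
          exact ⟨⟨z, h6⟩, h5, rfl⟩
      rw [← h4]
      exact h3
    rw [← hvol _ hA (fun z hz => hTV hz.2)]
    congr 1
    ext x
    constructor
    · rintro ⟨h1, z, hz, rfl⟩
      exact ⟨z, ⟨h1, hz⟩, rfl⟩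
    · rintro ⟨z, ⟨h1, h2⟩, rfl⟩
      exact ⟨h1, z, h2, rfl⟩
  have hMm : m.restrict M = m := Measure.restrict_eq_self_of_ae_mem (by
    rw [ae_iff]
    exact hm.null)
  have hFm : AEStronglyMeasurable F m := by
    rw [← hMm]
    exact hF.aestronglyMeasurable hm.compact.measurableSet
  have hae : ∀ᵐ x ∂m, x ∉ S → F x = 0 := by
    have h1 : ∀ᵐ x ∂m, x ∈ M := by
      rw [ae_iff]
      exact hm.null
    filter_upwards [h1] with x hx hxS
    refine hF0 x hx ?_
    rintro ⟨y, hy, rfl⟩
    refine hxS ⟨z0 + ρ • y, ?_, rfl⟩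
    change d.q (ρ⁻¹ • (z0 + ρ • y - z0)) ≤ 1
    rw [add_sub_cancel_left, smul_smul, inv_mul_cancel₀ hρ.ne', one_smul]
    exact hy
  have e1 : ∫ x, F x ∂m = ∫ x in S, F x ∂m :=
    (setIntegral_eq_integral_of_ae_compl_eq_zero hae).symm
  have e2 : ∫ x in S, F x ∂m = ∫ z in T, F (c.ψ z) := by
    have h := hFm.restrict (s := S)
    rw [hmS] at h ⊢
    exact integral_map hψm h
  have e3 : ∫ z in T, F (c.ψ z) = ∫ z, T.indicator (fun z => F (c.ψ z)) z :=
    (integral_indicator hTm).symm
  have e4 : ∫ z, T.indicator (fun z => F (c.ψ z)) z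
      = ∫ z, T.indicator (fun z => F (c.ψ z)) (z0 + z) :=
    (integral_add_left_eq_self (μ := (volume : Measure (E N)))
      (fun z => T.indicator (fun z => F (c.ψ z)) z) z0).symm
  have e5 := Measure.integral_comp_smul (volume : Measure (E N))
    (fun z => T.indicator (fun z => F (c.ψ z)) (z0 + z)) ρ
  have hQm : MeasurableSet {y : E N | d.q y ≤ 1} :=
    (isClosed_le (q_cont d) continuous_const).measurableSet
  have e6 : ∫ y in {y : E N | d.q y ≤ 1}, F (c.ψ (z0 + ρ • y))
      = ∫ y, T.indicator (fun z => F (c.ψ z)) (z0 + ρ • y) := by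
    rw [← integral_indicator hQm]
    refine integral_congr_ae (Eventually.of_forall fun y => ?_)
    have h1 : (z0 + ρ • y ∈ T) ↔ (y ∈ {y : E N | d.q y ≤ 1}) := by
      change d.q (ρ⁻¹ • (z0 + ρ • y - z0)) ≤ 1 ↔ d.q y ≤ 1
      rw [add_sub_cancel_left, smul_smul, inv_mul_cancel₀ hρ.ne', one_smul]
    by_cases h2 : y ∈ {y : E N | d.q y ≤ 1}
    · simp only [indicator_of_mem h2, indicator_of_mem (h1.2 h2)]
    · simp only [indicator_of_notMem h2, indicator_of_notMem (fun h => h2 (h1.1 h))]
  rw [e1, e2, e3, e4, e6, e5, finrank_euclideanSpace_fin, smul_eq_mul, ← mul_assoc,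
    abs_of_pos (by positivity), mul_inv_cancel₀ (by positivity), one_mul]

end Pool.Agent.Helper64.RZ
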